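import Mathlib
import Pool.Agent.W2helper37.GQ.Defs
import Pool.Agent.Helper58K9.AR.Mld

/-!
# Pairs which are étale locally quotients of toroidal pairs: definitions
-/

set_option autoImplicit false
set_option linter.unusedSectionVars false

namespace Pool.Agent.W2helper37.LQ

open Pool.Agent.H436R3.Fol Pool.Agent.H436R3.KT Pool.Agent.W497.Mld Pool.Agent.TH165.ACC
  Q47.QM Q47.TV
open Pool.Agent.Helper58K9.ET (Etale)
open Pool.Agent.W2helper37.GQ (Cover)

/-- An étale toric chart of the pair `(X, B)` at the closed point `x` of `X`, for the automorphism `σ`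
of `X`: an affine toric variety `g` of dimension `n` with a torus invariant boundary `B'` and a monomial
automorphism `τ`; an affine variety `U` with étale morphisms to `X` and to `g` (`Etale`: the coordinate
ring of `U` is a standard étale algebra), a closed point `u` of `U` over `x`, an automorphism `ρ` of `U`
which fixes `u` and lies over `σ` and over `τ`, such that the pull-backs of `K_X + B` and of `K + B'` to
`U` agree: a divisor over a closed point `u'` of `U` has the same log discrepancy with respect to both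
pairs. The image of `u` in the toric variety is any closed point. -/
structure ToricChart (n : ℕ) (K : Type) [Field K] [Algebra ℂ K]
    [Algebra (MvPolynomial (Fin n) ℂ) K] [IsFractionRing (MvPolynomial (Fin n) ℂ) K]
    [IsScalarTower ℂ (MvPolynomial (Fin n) ℂ) K] {L : Type} [Field L] [Algebra ℂ L]
    {X : AffVar L} {B : EffDiv X} (E : ∀ x : Pt X, LocEq B x) (x : Pt X) (σ : L ≃ₐ[ℂ] L) where
  g : TorAff n K
  B' : EffDiv g.X
  /-- the prime divisors which meet the torus are not components of `B'` -/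
  htor : ∀ v : DVal K, (∀ i : Fin n, v.ord (cv K i) = 0) → B'.mult v = 0
  E' : ∀ y : Pt g.X, LocEq B' y
  τ : K ≃ₐ[ℂ] K
  aut : ∀ c, τ c ∈ g.X.R ↔ c ∈ g.X.R
  mono : IsMono n τ
  Ω : Type
  [fΩ : Field Ω]
  [aΩ : Algebra ℂ Ω]
  [aL : Algebra L Ω]
  [sL : IsScalarTower ℂ L Ω]
  [aK : Algebra K Ω]
  [sK : IsScalarTower ℂ K Ω]
  U : AffVar Ω
  etX : Etale X U.R
  etY : Etale g.X U.R
  u : Pt U
  ux : etX.im u = x
  ρ : Ω ≃ₐ[ℂ] Ω
  autU : ∀ f, ρ f ∈ U.R ↔ f ∈ U.R
  fixU : FixesPt u ρ
  comX : ∀ f : L, ρ (algebraMap L Ω f) = algebraMap L Ω (σ f)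
  comY : ∀ f : K, ρ (algebraMap K Ω f) = algebraMap K Ω (τ f)
  disc : ∀ (u' : Pt U) (w : DVal Ω) (v : DVal L) (v' : DVal K), IsOverGerm u' w →
    (∀ f : L, f ≠ 0 → w.ord (algebraMap L Ω f) = v.ord f) →
    (∀ f : K, f ≠ 0 → w.ord (algebraMap K Ω f) = v'.ord f) →
    ∀ b, IsLogDisc (E (etX.im u')) v b ↔ IsLogDisc (E' (etY.im u')) v' b

attribute [instance] ToricChart.fΩ ToricChart.aΩ ToricChart.aL ToricChart.sL ToricChart.aK
  ToricChart.sK

/-- The pair `(Y, BY)` is, étale locally at the closed point `y`, a quotient of a toroidal pair of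
dimension `n` by a finite group: there are an étale neighbourhood `Z → Y` of `y`, a normal affine
variety `X` with a finite group `G` such that `X / G = Z` (`Cover`), a closed point `x` of `X` over `y`,
effective divisors `BZ` and `BX` such that `K_Z + BZ` and `K_X + BX` are the pull-backs of `K_Y + BY`,
and for every `σ` in the stabiliser of `x` there is an étale toric chart of `(X, BX)` at `x` for `σ`.
The group `G` need not be abelian, the charts for different `σ` need not be related, and the toric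
varieties need not be simplicial. -/
def IsToricQuotient (n : ℕ) {M : Type} [Field M] [Algebra ℂ M] {Y : AffVar M}
    {BY : EffDiv Y} (EY : ∀ y : Pt Y, LocEq BY y) (y : Pt Y) : Prop :=
  ∃ (F : Type) (_ : Field F) (_ : Algebra ℂ F) (_ : Algebra M F) (_ : IsScalarTower ℂ M F)
    (L : Type) (_ : Field L) (_ : Algebra ℂ L) (_ : Algebra F L) (_ : IsScalarTower ℂ F L)
    (_ : FiniteDimensional F L) (_ : IsGalois F L)
    (Z : AffVar F) (h : Etale Y Z.R) (C : Cover Z L) (x : Pt C.X)
    (BZ : EffDiv Z) (EZ : ∀ z : Pt Z, LocEq BZ z) (BX : EffDiv C.X)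
    (EX : ∀ x : Pt C.X, LocEq BX x),
    h.im (C.im x) = y ∧
    (∀ (z : Pt Z) (v : DVal F) (v' : DVal M), IsOverGerm z v →
      (∀ f : M, f ≠ 0 → v.ord (algebraMap M F f) = v'.ord f) →
      ∀ b, IsLogDisc (EZ z) v b ↔ IsLogDisc (EY (h.im z)) v' b) ∧
    (∀ x' : Pt C.X, C.IsPull (EX x') (EZ (C.im x'))) ∧
    ∀ σ ∈ C.St x, Nonempty (ToricChart n (FractionRing (MvPolynomial (Fin n) ℂ)) EX x σ)

end Pool.Agent.W2helper37.LQ
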