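import Mathlib
import Pool.Agent.Q47.TV.Inv

/-!
# Divisors over a closed point of a toric variety
-/

set_option autoImplicit false
set_option linter.unusedSectionVars false

namespace Pool.Agent.W2helper37.LQ

open Pool.Agent.H436R3.Fol Pool.Agent.H436R3.KT Pool.Agent.W497.Mld Pool.Agent.TH165.ACC
  Q47.QM Q47.TV

variable {n : ℕ} {K : Type} [Field K] [Algebra ℂ K]
  [Algebra (MvPolynomial (Fin n) ℂ) K] [IsFractionRing (MvPolynomial (Fin n) ℂ) K]
  [IsScalarTower ℂ (MvPolynomial (Fin n) ℂ) K]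

/-- There are divisors over every closed point. -/
theorem exists_over {g : TorAff n K} (hn : 0 < n) (x : Pt g.X) : ∃ v : DVal K, IsOverGerm x v := by
  classical
  obtain ⟨U, hU⟩ := exists_RI x
  set c1 := Module.finrank ℂ (Submodule.span ℂ (cst '' {m | m ∈ Fx x ∧
    (AddMonoidHom.id (Fin n → ℤ)) m = m})) with hc1
  have h1r : IsPrimitiveRoot (1 : ℂ) 1 := IsPrimitiveRoot.one
  obtain ⟨k, y, J, hEB⟩ := exists_eb2 (W := AddMonoidHom.id (Fin n → ℤ)) h1r one_pos
    (fun m => rfl) (F := Fx x) (fun m hm => by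
      rw [avg, Finset.sum_range_one]
      exact hm) hc1.symm
  obtain ⟨κ, hEG, hκ, hκJ⟩ := hEB.gen one_pos one_pos (θ' := 1) (one_pow 1) (one_pow 1) (U := U)
    (fun m => rfl) hU.1.2
  obtain ⟨ch, hch0, hchm, hchW, hchx⟩ := exists_char2 (W := AddMonoidHom.id (Fin n → ℤ))
    (l := fun _ => 1) (U := U) (θ := 1) one_ne_zero (fun _ => one_ne_zero)
    (fun _ _ => (one_mul 1).symm)
    (F1 := Fx x) Fx_zero (fun _ h _ h' => Fx_add h h') (χ := yx x) (fun _ h => h.2)
    (fun _ h _ h' => yx_add x h.1 h'.1) (fun m1 _ m2 _ m3 h => by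
      have h2 : m1 - m2 = 0 := by rw [← h]; exact sub_self _
      rw [sub_eq_zero.1 h2, one_zpow, div_one, one_mul])
  obtain ⟨c, v, a, hc0, hov, -⟩ := exists_val2 (x := x) (Mo.one (K := K)) one_pos
    h1r hEG (fun m => rfl) (mono_ne hn hEG hU.2) hU.1.2 hU.2 hch0 hchm hchW hchx
  exact ⟨v, hov⟩

end Pool.Agent.W2helper37.LQ
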