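import Mathlib
import Pool.Agent.Helper58K9.ET.Opn
import Pool.Agent.Q47.TV.Et

/-!
# Fixed points of automorphisms of étale neighbourhoods
-/

set_option autoImplicit false
set_option linter.unusedSectionVars false

namespace Pool.Agent.W2helper37.LQ

open Pool.Agent.H436R3.Fol Pool.Agent.H436R3.KT Pool.Agent.W497.Mld Q47.QM Q47.TV Polynomial
open Pool.Agent.Helper58K9.ET (Etale opn)
open Pool.Agent.Helper58K9.ET.OpnL

section

variable {L Ω : Type} [Field L] [Field Ω] [Algebra ℂ L] [Algebra ℂ Ω] [Algebra L Ω]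
  [IsScalarTower ℂ L Ω] {X : AffVar L} {S : Subalgebra ℂ Ω} (h : Etale X S)

theorem t_mem : h.t ∈ S := by
  have h1 : h.t ∈ Algebra.adjoin ℂ ((algebraMap L Ω '' (X.R : Set L)) ∪
      {h.t, (aeval h.t h.s)⁻¹}) := Algebra.subset_adjoin (Or.inr (Or.inl rfl))
  rwa [← h.hS] at h1

theorem sinv_mem : (aeval h.t h.s)⁻¹ ∈ S := by
  have h1 : (aeval h.t h.s)⁻¹ ∈ Algebra.adjoin ℂ ((algebraMap L Ω '' (X.R : Set L)) ∪
      {h.t, (aeval h.t h.s)⁻¹}) := Algebra.subset_adjoin (Or.inr (Or.inr rfl))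
  rwa [← h.hS] at h1

/-- evaluation at `t`, with values in `S` -/
noncomputable def phS : X.R[X] →+* S :=
  Polynomial.eval₂RingHom h.inc.toRingHom ⟨h.t, t_mem h⟩

theorem phS_coe (A : X.R[X]) : ((phS h A : S) : Ω) = ps X h.t A := by
  have h2 : (S.val.toRingHom.comp (phS h)) = ps X h.t := by
    refine Polynomial.ringHom_ext (fun a => ?_) ?_
    · simp only [phS, RingHom.comp_apply, coe_eval₂RingHom, eval₂_C, ps_C]
      rfl
    · simp only [phS, RingHom.comp_apply, coe_eval₂RingHom, eval₂_X, ps_X]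
      rfl
  exact congrArg (fun g => g A) h2

theorem phS_pt (y : S →ₐ[ℂ] ℂ) (A : X.R[X]) :
    y (phS h A) = vx (h.im y) (y ⟨h.t, t_mem h⟩) A := by
  have h4 : (y.toRingHom.comp (phS h)) = vx (h.im y) (y ⟨h.t, t_mem h⟩) := by
    refine Polynomial.ringHom_ext (fun a => ?_) ?_
    · simp only [phS, RingHom.comp_apply, coe_eval₂RingHom, eval₂_C, vx_C]
      rfl
    · simp only [phS, RingHom.comp_apply, coe_eval₂RingHom, eval₂_X, vx_X]
      rfl
  exact congrArg (fun g => g A) h4

/-- a closed point of `U` is determined by its image in `X` and by the value of `t` -/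
theorem pt_ext {y y' : S →ₐ[ℂ] ℂ} (h1 : h.im y = h.im y')
    (h2 : y ⟨h.t, t_mem h⟩ = y' ⟨h.t, t_mem h⟩) : y = y' := by
  obtain ⟨D⟩ := exists_dt h
  apply AlgHom.ext
  intro f
  obtain ⟨k, A, hA⟩ := form D f.2
  have e1 : f * phS h D.s ^ k = phS h A := by
    apply Subtype.ext
    push_cast
    rw [phS_coe, phS_coe]
    exact hA
  have e2 := congrArg y e1
  have e3 := congrArg y' e1
  rw [map_mul, map_pow, phS_pt, phS_pt] at e2 e3
  rw [← h1, ← h2] at e3
  have hne : vx (h.im y) (y ⟨h.t, t_mem h⟩) D.s ≠ 0 := by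
    rw [← phS_pt]
    intro h0
    have e4 : (⟨(aeval h.t h.s)⁻¹, sinv_mem h⟩ : S) * phS h D.s = 1 := by
      apply Subtype.ext
      push_cast
      rw [phS_coe, pss D]
      exact inv_mul_cancel₀ h.sne
    have e5 := congrArg y e4
    rw [map_mul, h0, mul_zero, map_one] at e5
    exact zero_ne_one e5
  exact mul_right_cancel₀ (pow_ne_zero k hne) (e2.trans e3.symm)

/-- Near a fixed point `u` of `ρ` all the points over fixed points of `σ` are fixed points of `ρ`. -/
theorem nb_fixU {U : AffVar Ω} (h : Etale X U.R) {u : Pt U} {σ : L ≃ₐ[ℂ] L} {ρ : Ω ≃ₐ[ℂ] Ω}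
    (hU : ∀ f, ρ f ∈ U.R ↔ f ∈ U.R) (hu : FixesPt u ρ) (hσ : ∀ f ∈ X.R, σ f ∈ X.R)
    (hcom : ∀ f : L, ρ (algebraMap L Ω f) = algebraMap L Ω (σ f)) :
    ∃ k : U.R, u k ≠ 0 ∧ ∀ u' : Pt U, u' k ≠ 0 → FixesPt (h.im u') σ → FixesPt u' ρ := by
  obtain ⟨D⟩ := exists_dt h
  let ρS : U.R →ₐ[ℂ] U.R := ((ρ : Ω →ₐ[ℂ] Ω).comp U.R.val).codRestrict U.R
    fun f => (hU f).2 f.2
  have hρS : ∀ f : U.R, ((ρS f : U.R) : Ω) = ρ f := fun f => rfl
  set tS : U.R := ⟨h.t, t_mem h⟩ with htS
  set P' : U.R[X] := D.P.map h.inc.toRingHom with hP'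
  have hPm : P'.Monic := D.hm.map _
  have hPe : ∀ A : X.R[X], (A.map h.inc.toRingHom).eval tS = phS h A := by
    intro A
    rw [eval_map]
    rfl
  have hP0 : P'.eval tS = 0 := by
    rw [hP', hPe]
    apply Subtype.ext
    rw [phS_coe, psP D]
    rfl
  set Q : U.R[X] := P' /ₘ (Polynomial.X - C tS) with hQ
  have hPQ : P' = (Polynomial.X - C tS) * Q := by
    rw [hQ]
    exact (mul_divByMonic_eq_iff_isRoot.2 hP0).symm
  have hder : P'.derivative.eval tS = Q.eval tS := by
    rw [hPQ, derivative_mul, eval_add, eval_mul, eval_mul, derivative_sub, derivative_X,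
      derivative_C, sub_zero, eval_one, one_mul, eval_sub, eval_X, eval_C, sub_self, zero_mul,
      add_zero]
  have hfixt : ∀ f : U.R, u (ρS f) = u f := fun f => (hu f (ρS f) (hρS f)).symm
  have hval : ∀ (u' : Pt U) (A : U.R[X]) (a : U.R), u' (A.eval a) =
      (A.map u'.toRingHom).eval (u' a) := by
    intro u' A a
    rw [eval_map]
    exact (hom_eval₂ A (RingHom.id _) u'.toRingHom a)
  refine ⟨Q.eval (ρS tS), ?_, fun u' hu' hfix => ?_⟩
  · rw [hval, hfixt, ← hval, ← hder, hP', derivative_map, hPe]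
    intro h0
    have hchar : CharZero L := charZero_of_injective_algebraMap (algebraMap ℂ L).injective
    have hsep : (minpoly L h.t).Separable := (minpoly.irreducible h.int).separable
    have hne : aeval h.t (derivative (minpoly L h.t)) ≠ 0 :=
      hsep.aeval_derivative_ne_zero (minpoly.aeval L h.t)
    have e1 : (⟨(aeval h.t (derivative (minpoly L h.t)))⁻¹, h.unit⟩ : U.R) *
        phS h (derivative D.P) = 1 := by
      apply Subtype.ext
      push_cast
      have e2 : (phS h (derivative D.P) : Ω) = aeval h.t (derivative (minpoly L h.t)) := by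
        rw [phS_coe, ps_eq, ← derivative_map, D.hP]
      rw [e2]
      exact inv_mul_cancel₀ hne
    have e5 := congrArg u e1
    rw [map_mul, h0, mul_zero, map_one] at e5
    exact zero_ne_one e5
  · set φ : U.R →ₐ[ℂ] ℂ := u'.comp ρS with hφ
    have him : h.im φ = h.im u' := by
      apply AlgHom.ext
      intro f
      have h1 : ρS (h.inc f) = h.inc ⟨σ f, hσ f f.2⟩ := Subtype.ext (hcom f)
      change u' (ρS (h.inc f)) = u' (h.inc f)
      rw [h1]
      exact (hfix f ⟨σ f, hσ f f.2⟩ rfl).symm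
    have e1 : (P'.map u'.toRingHom).eval (φ tS) = 0 := by
      have e2 : P'.map u'.toRingHom = D.P.map (h.im u').toRingHom := by
        rw [hP', Polynomial.map_map]
        rfl
      have e3 := phS_pt h φ D.P
      rw [him, vx_eq] at e3
      rw [e2, htS, ← e3]
      have e4 : phS h D.P = 0 := by
        apply Subtype.ext
        rw [phS_coe, psP D]
        rfl
      rw [e4, map_zero]
    rw [hPQ, Polynomial.map_mul, eval_mul, Polynomial.map_sub, Polynomial.map_X, map_C, eval_sub,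
      eval_X, eval_C] at e1
    have e2 : (Q.map u'.toRingHom).eval (φ tS) ≠ 0 := by
      have e3 : φ tS = u' (ρS tS) := rfl
      rw [e3, ← hval]
      exact hu'
    have e3 : φ tS = u' tS := sub_eq_zero.1 ((mul_eq_zero.1 e1).resolve_right e2)
    have e4 : φ = u' := pt_ext h him e3
    intro f f' hff
    have e5 : f' = ρS f := Subtype.ext (by rw [hff, hρS])
    rw [e5]
    exact (congrArg (fun ψ => ψ f) e4).symm

end

end Pool.Agent.W2helper37.LQ
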