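import Mathlib
import Pool.Agent.W2helper37.LQ.Fix
import Pool.Agent.W2helper37.LQ.Defs
import Pool.Agent.W2helper37.LQ.Div
import Pool.Agent.W2helper37.GQ.Chart
import Pool.Agent.Q47.TV.Grp

/-!
# Comparison of the log discrepancies at nearby points, upstairs
-/

set_option autoImplicit false
set_option linter.unusedSectionVars false

namespace Pool.Agent.W2helper37.LQ

open Pool.Agent.H436R3.Fol Pool.Agent.H436R3.KT Pool.Agent.W497.Mld Pool.Agent.TH165.ACC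
  Q47.QM Q47.TV
open Pool.Agent.Helper58K9.ET (Etale opn)
open Pool.Agent.W2helper37.GQ (isEtale_of rigid)

variable {n : ℕ} {K : Type} [Field K] [Algebra ℂ K]
  [Algebra (MvPolynomial (Fin n) ℂ) K] [IsFractionRing (MvPolynomial (Fin n) ℂ) K]
  [IsScalarTower ℂ (MvPolynomial (Fin n) ℂ) K] {L : Type} [Field L] [Algebra ℂ L]
  {X : AffVar L} {B : EffDiv X} {E : ∀ x : Pt X, LocEq B x} {x : Pt X} {σ : L ≃ₐ[ℂ] L}

/-- the automorphism of the toric variety has finite order if there are divisors -/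
theorem ToricChart.ord (C : ToricChart n K E x σ) {u' : Pt C.U} (hu' : FixesPt u' C.ρ)
    {w : DVal C.Ω} (hw : IsOverGerm u' w) {N : ℕ} (hN : σ ^ N = 1) : C.τ ^ N = 1 := by
  have hcX' : ∀ f : L, C.ρ (IsScalarTower.toAlgHom ℂ L C.Ω f) =
      IsScalarTower.toAlgHom ℂ L C.Ω (σ f) := fun f => C.comX f
  have hcY : ∀ f : K, C.ρ (IsScalarTower.toAlgHom ℂ K C.Ω f) =
      IsScalarTower.toAlgHom ℂ K C.Ω (C.τ f) := fun f => C.comY f
  have h1 : C.ρ ^ N = 1 := by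
    refine rigid C.etX (aut_pow C.autU N) (fix_pow C.autU hu' N) (fun f => ?_) hw
    have h2 := com_pow hcX' N f
    rw [hN] at h2
    exact h2
  apply AlgEquiv.ext
  intro f
  have h2 := com_pow hcY N f
  rw [h1] at h2
  exact ((algebraMap K C.Ω).injective h2).symm

theorem ToricChart.iter (C : ToricChart n K E x σ) {N : ℕ} (hN : σ ^ N = 1)
    {W : (Fin n → ℤ) →+ (Fin n → ℤ)} {l : (Fin n → ℤ) → ℂ} (hmo : Mo C.τ W l) (m : Fin n → ℤ) :
    W^[N] m = m := by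
  rcases Nat.eq_zero_or_pos n with hn | hn
  · subst hn
    exact Subsingleton.elim _ _
  obtain ⟨v, hv⟩ := exists_over hn (C.etY.im C.u)
  obtain ⟨w, hw, -⟩ := (isEtale_of C.etY C.u).lift v hv
  exact hmo.iter_eq (C.ord C.fixU hw hN) m

/-- The log discrepancies agree, in terms of `Restr`. -/
theorem ToricChart.disc' (C : ToricChart n K E x σ) (u' : Pt C.U) (w : DVal C.Ω) (v : DVal L)
    (v' : DVal K) (hw : IsOverGerm u' w) (h1 : Restr (IsScalarTower.toAlgHom ℂ L C.Ω) w v)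
    (h2 : Restr (IsScalarTower.toAlgHom ℂ K C.Ω) w v') (b : ℝ) :
    IsLogDisc (E (C.etX.im u')) v b ↔ IsLogDisc (C.E' (C.etY.im u')) v' b :=
  C.disc u' w v v' hw (fun f _ => (h1 f).symm) (fun f _ => (h2 f).symm) b

/-- the conditions on a point near `x` for one automorphism -/
structure Near (C : ToricChart n K E x σ) (W : (Fin n → ℤ) →+ (Fin n → ℤ))
    (l : (Fin n → ℤ) → ℂ) (x' : Pt X) (u' : Pt C.U) : Prop where
  im : C.etX.im u' = x'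
  fix : FixesPt x' σ → FixesPt u' C.ρ
  sub : ∀ m ∈ Fx (C.etY.im C.u), m ∈ Fx (C.etY.im u')
  chr : Fixes (C.etY.im u') W l → Fixes (C.etY.im C.u) W l ∧
    ∀ m1 ∈ Fx (C.etY.im C.u), ∀ m2 ∈ Fx (C.etY.im C.u), ∀ m', W m' - m' = m1 - m2 →
      yx (C.etY.im u') m1 * yx (C.etY.im C.u) m2 = yx (C.etY.im u') m2 * yx (C.etY.im C.u) m1

theorem ToricChart.near (C : ToricChart n K E x σ) {R : ℕ} (hR : 0 < R)
    {W : (Fin n → ℤ) →+ (Fin n → ℤ)} {l : (Fin n → ℤ) → ℂ} (hmo : Mo C.τ W l)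
    (hWR : ∀ m, W^[R] m = m) (hσ : ∀ f ∈ X.R, σ f ∈ X.R) :
    NX x fun x' => ∃ u', Near C W l x' u' := by
  obtain ⟨f1, hf1, hf1P⟩ := nb_main (l := l) hmo.1 (cone_aut hmo C.aut) hR hWR (C.etY.im C.u)
  obtain ⟨k, hk, hkP⟩ := nb_fixU C.etX C.autU C.fixU hσ C.comX
  obtain ⟨f, hf, hfP⟩ := opn C.etX C.u (C.etY.inc f1 * k) (by
    rw [map_mul]
    exact mul_ne_zero hf1 hk)
  rw [C.ux] at hf
  refine ⟨f, hf, fun x' hx' => ?_⟩
  obtain ⟨u', hu', hq⟩ := hfP x' hx'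
  rw [map_mul] at hq
  obtain ⟨h1, h2⟩ := hf1P (C.etY.im u') (left_ne_zero_of_mul hq)
  exact ⟨u', hu', fun h => hkP u' (right_ne_zero_of_mul hq) (by rw [hu']; exact h), h1, h2⟩

/-- the comparison at one point -/
theorem ToricChart.compare (C : ToricChart n K E x σ) {R : ℕ} (hR : 0 < R)
    (hRW : ∀ (W : (Fin n → ℤ) →+ (Fin n → ℤ)) (r : ℕ), 0 < r → (∀ m, W^[r] m = m) →
      ∀ m, W^[R] m = m) (G : Subgroup (L ≃ₐ[ℂ] L)) [Finite G] (hσG : σ ∈ G)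
    (hga : IsGermAut (E x) σ)
    {W : (Fin n → ℤ) →+ (Fin n → ℤ)} {l : (Fin n → ℤ) → ℂ} (hmo : Mo C.τ W l)
    {x' : Pt X} {u' : Pt C.U} (hN : Near C W l x' u') {m : ℝ} (hm0 : 0 ≤ m)
    (hm : ∀ v b, IsOverGerm x v → IsLogDisc (E x) v b →
      m ≤ b / Nat.card (G ⊓ Ig v : Subgroup (L ≃ₐ[ℂ] L)))
    {v : DVal L} {b : ℝ} (hov : IsOverGerm x' v) (hb : IsLogDisc (E x') v b) {r : ℕ}
    (hr : 0 < r) (hI : InI v σ) (hσr : σ ^ r = 1) (hch : Ch v σ (ee (1 / r))) : m ≤ b / r := by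
  classical
  have hcX : ∀ f : L, C.ρ (IsScalarTower.toAlgHom ℂ L C.Ω f) =
      IsScalarTower.toAlgHom ℂ L C.Ω (σ f) := fun f => C.comX f
  have hcY : ∀ f : K, C.ρ (IsScalarTower.toAlgHom ℂ K C.Ω f) =
      IsScalarTower.toAlgHom ℂ K C.Ω (C.τ f) := fun f => C.comY f
  have hux' := hN.im
  subst hux'
  have hfixu : FixesPt u' C.ρ := hN.fix (fixesPt_of_InI hov hI)
  obtain ⟨w, v', hw, hwv, hov', hwv', hI', hch'⟩ :=
    transfer (isEtale_of C.etX u') (isEtale_of C.etY u') hcX hcY C.autU hfixu hov hI hch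
  rcases Nat.eq_zero_or_pos n with hn | hn
  · subst hn
    exact (no_dval v').elim
  have hb' : IsLogDisc (C.E' (C.etY.im u')) v' b := (C.disc' u' w v v' hw hwv hwv' b).1 hb
  have hτr : C.τ ^ r = 1 := C.ord hfixu hw hσr
  have hWr := hmo.iter_eq hτr
  have hcone := cone_aut hmo C.aut
  have hfix' : Fixes (C.etY.im u') W l := fixes_of_InI hmo hcone hov' hI'
  obtain ⟨hfix, hchar⟩ := hN.chr hfix'
  have hfo : IsOfFinOrder C.τ := isOfFinOrder_iff_pow_eq_one.2 ⟨r, hr, hτr⟩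
  have hfin : Finite (Subgroup.zpowers C.τ) := (finite_zpowers.2 hfo).to_subtype
  choose vE hvE htE using fun i => exists_mon (K := K) (C.g.prim i)
  obtain ⟨Φ, hΦ⟩ := exists_phi3 hvE htE C.htor (C.E' (C.etY.im C.u))
  have hX0 : IsEtale (IsScalarTower.toAlgHom ℂ L C.Ω) x C.u := by
    have h1 := isEtale_of C.etX C.u
    rwa [C.ux] at h1
  have hY0 := isEtale_of C.etY C.u
  have hd0 : ∀ (w : DVal C.Ω) (v : DVal L) (v' : DVal K), IsOverGerm C.u w →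
      Restr (IsScalarTower.toAlgHom ℂ L C.Ω) w v → Restr (IsScalarTower.toAlgHom ℂ K C.Ω) w v' →
      ∀ b, IsLogDisc (E x) v b ↔ IsLogDisc (C.E' (C.etY.im C.u)) v' b := by
    intro w v v' h1 h2 h3 b
    have h4 := C.disc' C.u w v v' h1 h2 h3 b
    rw [C.ux] at h4
    exact h4
  refine lsc_one (G := Subgroup.zpowers C.τ) hR hn hvE htE (fun i => mult_nonneg C.B' (vE i))
    C.htor hΦ (C.E' (C.etY.im C.u)) (C.E' (C.etY.im u')) hov' hb' hr
    (Subgroup.mem_zpowers C.τ) hI' hτr hch' hmo (hRW W r hr hWr) hcone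
    (fun u hu => phi_inv hvE htE C.htor hΦ (C.E' (C.etY.im C.u)) hn hmo
      (at_fix_et hX0 hY0 hd0 hcX hcY C.autU C.fixU hga) hcone hfix hr hWr hu)
    hN.sub hfix hchar hm0 ?_
  -- the divisors over the toric point
  intro v0 b0 hov0 hb0
  obtain ⟨hs, τ', hτ'G, hI0, hτ's, hch0⟩ := exists_gen (Subgroup.zpowers C.τ) v0
  set s := Nat.card (Subgroup.zpowers C.τ ⊓ Ig v0 : Subgroup (K ≃ₐ[ℂ] K)) with hsd
  obtain ⟨j, rfl⟩ := (hfo.mem_powers_iff_mem_zpowers.2 hτ'G)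
  obtain ⟨w2, v2, hw2, hr2, hov2, hr2', hI2, hch2⟩ :=
    transfer hY0 hX0 (com_pow hcY j) (com_pow hcX j) (aut_pow C.autU j)
      (fix_pow C.autU C.fixU j) hov0 hI0 hch0
  have hb2 : IsLogDisc (E x) v2 b0 := (hd0 w2 v2 v0 hw2 hr2' hr2 b0).2 hb0
  have h1 := hm v2 b0 hov2 hb2
  obtain ⟨ht, -⟩ := exists_gen G v2
  set t := Nat.card (G ⊓ Ig v2 : Subgroup (L ≃ₐ[ℂ] L)) with htd
  have hpow : (σ ^ j) ^ t = 1 := by
    have h2 : σ ^ j ∈ (G ⊓ Ig v2 : Subgroup (L ≃ₐ[ℂ] L)) :=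
      ⟨Subgroup.pow_mem _ hσG _, mem_Ig.2 hI2⟩
    have h3 : (⟨σ ^ j, h2⟩ : (G ⊓ Ig v2 : Subgroup (L ≃ₐ[ℂ] L))) ^ t = 1 := pow_card_eq_one'
    have h4 := congrArg Subtype.val h3
    simpa using h4
  have hst : s ∣ t := by
    have h2 := Ch.pow' hI2 hch2 t
    rw [hpow] at h2
    have h3 := h2.uniq Ch.one
    exact ((Complex.isPrimitiveRoot_exp s hs.ne').pow_eq_one_iff_dvd _).1 h3
  have hle : s ≤ t := Nat.le_of_dvd ht hst
  have ht' : (0 : ℝ) < t := by exact_mod_cast ht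
  have hs' : (0 : ℝ) < s := by exact_mod_cast hs
  have hle' : (s : ℝ) ≤ t := by exact_mod_cast hle
  rw [le_div_iff₀ ht'] at h1
  rw [le_div_iff₀ hs']
  nlinarith

/-- **The comparison**: near `x` the bound holds for the divisors over `x'` if it holds for the
divisors over `x`. -/
theorem lsc_et (K : Type) [Field K] [Algebra ℂ K]
    [Algebra (MvPolynomial (Fin n) ℂ) K] [IsFractionRing (MvPolynomial (Fin n) ℂ) K]
    [IsScalarTower ℂ (MvPolynomial (Fin n) ℂ) K] (G : Subgroup (L ≃ₐ[ℂ] L)) [Finite G]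
    (hG1 : ∀ σ ∈ G, ∀ f ∈ X.R, σ f ∈ X.R)
    (hG2 : ∀ σ ∈ G, FixesPt x σ → IsGermAut (E x) σ)
    (hx : ∀ σ ∈ G, FixesPt x σ → Nonempty (ToricChart n K E x σ)) :
    NX x fun x' => ∀ m : ℝ, 0 ≤ m →
      (∀ v b, IsOverGerm x v → IsLogDisc (E x) v b →
        m ≤ b / Nat.card (G ⊓ Ig v : Subgroup (L ≃ₐ[ℂ] L))) →
      ∀ v b, IsOverGerm x' v → IsLogDisc (E x') v b →
        m ≤ b / Nat.card (G ⊓ Ig v : Subgroup (L ≃ₐ[ℂ] L)) := by
  classical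
  obtain ⟨R, hR, hRW⟩ := exists_R n
  have hc : 0 < Nat.card G := Nat.card_pos
  have hpow : ∀ σ ∈ G, σ ^ Nat.card G = 1 := by
    intro σ hσ
    have h1 : (⟨σ, hσ⟩ : G) ^ Nat.card G = 1 := pow_card_eq_one'
    have h2 : (((⟨σ, hσ⟩ : G) ^ Nat.card G : G) : L ≃ₐ[ℂ] L) = 1 := by rw [h1]; rfl
    rw [Subgroup.coe_pow] at h2
    exact h2
  have hmain : ∀ σ : G, NX x fun x' => (FixesPt x' σ.1 → FixesPt x σ.1) ∧
      ∀ hf : FixesPt x σ.1, ∃ (C : ToricChart n K E x σ.1) (W : (Fin n → ℤ) →+ (Fin n → ℤ))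
        (l : (Fin n → ℤ) → ℂ) (u' : Pt C.U), Mo C.τ W l ∧ Near C W l x' u' := by
    intro σ
    refine (nx_fix x σ.1).and ?_
    by_cases hf : FixesPt x σ.1
    · obtain ⟨C⟩ := hx σ.1 σ.2 hf
      obtain ⟨W, l, hmo⟩ := exists_mo C.mono
      have hit := C.iter (hpow σ.1 σ.2) hmo
      exact (C.near hR hmo (hRW W _ hc hit) (hG1 σ.1 σ.2)).mono fun x' ⟨u', hu'⟩ _ =>
        ⟨C, W, l, u', hmo, hu'⟩
    · exact NX.all fun _ h => absurd h hf
  refine (NX.finite hmain).mono ?_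
  intro x' hx' m hm0 hm v b hov hb
  obtain ⟨hr, σ, hσG, hI, hσr, hch⟩ := exists_gen G v
  rw [ee_root] at hch
  obtain ⟨h1, h2⟩ := hx' ⟨σ, hσG⟩
  have hfx := h1 (fixesPt_of_InI hov hI)
  obtain ⟨C, W, l, u', hmo, hN⟩ := h2 hfx
  exact C.compare hR hRW G hσG (hG2 σ hσG hfx) hmo hN hm0 hm hov hb hr hI hσr hch

end Pool.Agent.W2helper37.LQ
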