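import Mathlib
import Pool.Agent.W2helper37.GQ.Formula
import Pool.Agent.W2helper37.GQ.Final

/-!
# Points of the quotient and points upstairs
-/

set_option autoImplicit false
set_option linter.unusedSectionVars false

namespace Pool.Agent.W2helper37.LQ

open Pool.Agent.H436R3.Fol Pool.Agent.H436R3.KT Pool.Agent.W497.Mld Q47.QM Q47.TV
open Pool.Agent.W2helper37.GQ (Cover)

variable {F L : Type} [Field F] [Algebra ℂ F] [Field L] [Algebra ℂ L] [Algebra F L]
  [IsScalarTower ℂ F L] {Z : AffVar F} (C : Cover Z L)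

/-- the Galois group, as a group of automorphisms over `ℂ` -/
def Gal (F L : Type) [Field F] [Algebra ℂ F] [Field L] [Algebra ℂ L] [Algebra F L] :
    Subgroup (L ≃ₐ[ℂ] L) where
  carrier := {σ | ∀ f : F, σ (algebraMap F L f) = algebraMap F L f}
  one_mem' := fun f => rfl
  mul_mem' := by
    intro σ τ h1 h3 f
    rw [AlgEquiv.mul_apply, h3, h1]
  inv_mem' := by
    intro σ h1 f
    apply σ.injective
    rw [h1]
    exact σ.apply_symm_apply _

theorem finite_Gal [FiniteDimensional F L] : Finite (Gal F L) := by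
  let φ : Gal F L → (L ≃ₐ[F] L) := fun σ =>
    AlgEquiv.ofRingEquiv (f := (σ.1 : L ≃ₐ[ℂ] L).toRingEquiv) σ.2
  refine Finite.of_injective φ fun σ τ h => ?_
  apply Subtype.ext
  apply AlgEquiv.ext
  intro f
  exact congrArg (fun ψ : L ≃ₐ[F] L => ψ f) h

theorem mem_Gal_stab {σ : L ≃ₐ[ℂ] L} (hσ : σ ∈ Gal F L) (f : L) (hf : f ∈ C.X.R) :
    σ f ∈ C.X.R :=
  C.stab (AlgEquiv.ofRingEquiv (f := σ.toRingEquiv) hσ) f hf

theorem card_Gal {x : Pt C.X} {v : DVal L} (hv : IsOverGerm x v) :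
    Nat.card {σ : C.St x // ∀ f, v.Reg f → v.Pos ((σ : L ≃ₐ[ℂ] L) f - f)} =
      Nat.card (Gal F L ⊓ Ig v : Subgroup (L ≃ₐ[ℂ] L)) := by
  rw [card_inert]
  congr 1
  have h1 : (C.St x ⊓ Ig v : Subgroup (L ≃ₐ[ℂ] L)) = Gal F L ⊓ Ig v := by
    ext σ
    constructor
    · rintro ⟨h1, h2⟩
      exact ⟨h1.1, h2⟩
    · rintro ⟨h1, h2⟩
      exact ⟨⟨h1, fixesPt_of_InI hv (mem_Ig.1 h2)⟩, h2⟩
  rw [h1]

/-- the log discrepancies of the quotient -/
theorem quot_disc [FiniteDimensional F L] [IsGalois F L] {x : Pt C.X} {BX : EffDiv C.X}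
    {eX : LocEq BX x} {BZ : EffDiv Z} {eZ : LocEq BZ (C.im x)} (hp : C.IsPull eX eZ) (a : ℝ) :
    (∃ v, IsOverGerm (C.im x) v ∧ IsLogDisc eZ v a) ↔
      ∃ (v : DVal L) (b : ℝ), IsOverGerm x v ∧ IsLogDisc eX v b ∧
        a = b / Nat.card (Gal F L ⊓ Ig v : Subgroup (L ≃ₐ[ℂ] L)) := by
  constructor
  · rintro ⟨v, hv, ha⟩
    obtain ⟨w, e, he, h, hw⟩ := C.lift x hv
    refine ⟨w, e * a, hw, (C.disc hp hw hv he h a).1 ha, ?_⟩
    rw [← card_Gal C hw, C.card_eq hw he h]
    have he' : (e : ℝ) ≠ 0 := by exact_mod_cast he.ne'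
    field_simp
  · rintro ⟨w, b, hw, hb, rfl⟩
    obtain ⟨v, e, he, h, hv⟩ := C.restrict hw
    refine ⟨v, hv, ?_⟩
    rw [← card_Gal C hw, C.card_eq hw he h, C.disc hp hw hv he h]
    have he' : (e : ℝ) ≠ 0 := by exact_mod_cast he.ne'
    rwa [mul_div_cancel₀ _ he']

theorem inc_inj : Function.Injective C.inc := fun _ _ h =>
  Subtype.ext ((algebraMap F L).injective (congrArg Subtype.val h))

/-- every closed point of the quotient is the image of a closed point -/
theorem lying [FiniteDimensional F L] [IsGalois F L] (z : Pt Z) : ∃ x : Pt C.X, C.im x = z := by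
  let _ : MulSemiringAction (L ≃ₐ[F] L) C.R := C.act
  let _ : Algebra Z.R C.R := C.inc.toRingHom.toAlgebra
  have hsc : SMulCommClass (L ≃ₐ[F] L) Z.R C.R := ⟨fun σ a b => by
    apply Subtype.ext
    change σ (algebraMap F L (a : F) * (b : L)) = algebraMap F L (a : F) * σ (b : L)
    rw [map_mul, AlgEquiv.commutes]⟩
  have hinv : Algebra.IsInvariant Z.R C.R (L ≃ₐ[F] L) := ⟨fun b hb => by
    have h1 : ∀ σ : L ≃ₐ[F] L, σ (b : L) = b := fun σ => congrArg Subtype.val (hb σ)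
    obtain ⟨a, ha⟩ := (IsGalois.mem_range_algebraMap_iff_fixed (F := F) (E := L) (b : L)).2 h1
    exact ⟨⟨a, (C.inv a).2 (by rw [ha]; exact b.2)⟩, Subtype.ext ha⟩⟩
  have hint : Algebra.IsIntegral Z.R C.R := Algebra.IsInvariant.isIntegral Z.R C.R (L ≃ₐ[F] L)
  let P : Ideal Z.R := RingHom.ker z.toRingHom
  have hPm : P.IsMaximal := RingHom.ker_isMaximal_of_surjective _ fun c =>
    ⟨algebraMap ℂ Z.R c, z.commutes c⟩
  obtain ⟨Q, hQm, hQ⟩ := Ideal.exists_ideal_over_maximal_of_isIntegral (S := C.R) P (by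
    have h1 : RingHom.ker (algebraMap Z.R C.R) = ⊥ :=
      (RingHom.injective_iff_ker_eq_bot _).1 (inc_inj C)
    rw [h1]
    exact bot_le)
  let _ : Field (C.R ⧸ Q) := Ideal.Quotient.field Q
  have hft : Algebra.FiniteType ℂ C.R := C.R.fg_iff_finiteType.1 C.fg
  have hft' : Algebra.FiniteType ℂ (C.R ⧸ Q) := inferInstance
  have hfin : Module.Finite ℂ (C.R ⧸ Q) := finite_of_finite_type_of_isJacobsonRing ℂ (C.R ⧸ Q)
  have hbij : Function.Bijective (algebraMap ℂ (C.R ⧸ Q)) :=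
    IsAlgClosed.algebraMap_bijective_of_isIntegral
  let e : ℂ ≃ₐ[ℂ] (C.R ⧸ Q) := AlgEquiv.ofBijective (Algebra.ofId ℂ _) hbij
  let x : Pt C.X := (e.symm : (C.R ⧸ Q) →ₐ[ℂ] ℂ).comp (Ideal.Quotient.mkₐ ℂ Q)
  refine ⟨x, ?_⟩
  apply AlgHom.ext
  intro f
  have h1 : f - algebraMap ℂ Z.R (z f) ∈ P := by
    change z (f - algebraMap ℂ Z.R (z f)) = 0
    rw [map_sub, AlgHom.commutes]
    exact sub_self _
  rw [← hQ] at h1
  have h2 : Ideal.Quotient.mkₐ ℂ Q (C.inc (f - algebraMap ℂ Z.R (z f))) = 0 :=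
    Ideal.Quotient.eq_zero_iff_mem.2 h1
  have h3 : x (C.inc (f - algebraMap ℂ Z.R (z f))) = 0 := by
    change e.symm (Ideal.Quotient.mkₐ ℂ Q (C.inc (f - algebraMap ℂ Z.R (z f)))) = 0
    rw [h2, map_zero]
  rw [map_sub, map_sub, AlgHom.commutes, AlgHom.commutes] at h3
  exact sub_eq_zero.1 h3

/-- neighbourhoods of the image of `x` -/
theorem nbd [FiniteDimensional F L] [IsGalois F L] {x : Pt C.X} {f : C.X.R} (hf : x f ≠ 0) :
    ∃ g : Z.R, C.im x g ≠ 0 ∧ ∀ z : Pt Z, z g ≠ 0 → ∃ x' : Pt C.X, C.im x' = z ∧ x' f ≠ 0 := by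
  classical
  let s : (L ≃ₐ[F] L) → C.X.R := fun σ => ⟨σ f, C.stab σ f f.2⟩
  let q : Polynomial C.X.R := ∏ σ : L ≃ₐ[F] L, (Polynomial.X - Polynomial.C (s σ))
  have hqmap : ∀ y : Pt C.X, q.map y.toRingHom =
      ∏ σ : L ≃ₐ[F] L, (Polynomial.X - Polynomial.C (y (s σ))) := by
    intro y
    rw [Polynomial.map_prod]
    simp only [Polynomial.map_sub, Polynomial.map_X, Polynomial.map_C]
    rfl
  have hcoef : ∀ k, ∃ g : Z.R, C.inc g = q.coeff k := by
    intro k
    have hfix : ∀ τ : L ≃ₐ[F] L, τ ((q.coeff k : C.X.R) : L) = (q.coeff k : C.X.R) := by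
      intro τ
      have hL : q.map C.X.R.val.toRingHom =
          ∏ σ : L ≃ₐ[F] L, (Polynomial.X - Polynomial.C (σ (f : L))) := by
        rw [Polynomial.map_prod]
        simp only [Polynomial.map_sub, Polynomial.map_X, Polynomial.map_C]
        rfl
      have h3 : (q.map C.X.R.val.toRingHom).map (τ : L →+* L) = q.map C.X.R.val.toRingHom := by
        rw [hL, Polynomial.map_prod]
        simp only [Polynomial.map_sub, Polynomial.map_X, Polynomial.map_C]
        exact Fintype.prod_equiv (Equiv.mulLeft τ) _ _ fun σ => rfl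
      have h4 := congrArg (fun p => p.coeff k) h3
      simp only [Polynomial.coeff_map] at h4
      exact h4
    obtain ⟨a, ha⟩ := (IsGalois.mem_range_algebraMap_iff_fixed (F := F) (E := L) _).2 hfix
    exact ⟨⟨a, (C.inv a).2 (by rw [ha]; exact (q.coeff k).2)⟩, Subtype.ext ha⟩
  have hx1 : x (s 1) = x f := rfl
  set N := Fintype.card (L ≃ₐ[F] L) with hN
  obtain ⟨k, hkN, hk⟩ : ∃ k, k ≠ N ∧ x (q.coeff k) ≠ 0 := by
    by_contra hcon
    push Not at hcon
    have h1 : q.map x.toRingHom = Polynomial.X ^ N := by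
      have hm : (q.map x.toRingHom).Monic := by
        rw [hqmap]
        exact Polynomial.monic_prod_of_monic _ _ fun σ _ => Polynomial.monic_X_sub_C _
      have hd : (q.map x.toRingHom).natDegree = N := by
        rw [hqmap, Polynomial.natDegree_prod_of_monic _ _ fun σ _ => Polynomial.monic_X_sub_C _]
        simp only [Polynomial.natDegree_X_sub_C, Finset.sum_const, Finset.card_univ, smul_eq_mul,
          mul_one]
        rfl
      ext k
      rw [Polynomial.coeff_X_pow]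
      split_ifs with h2
      · rw [h2, ← hd]
        exact hm
      · rw [Polynomial.coeff_map]
        exact hcon k h2
    have h2 := congrArg (Polynomial.eval (x f)) h1
    rw [hqmap, Polynomial.eval_prod, Polynomial.eval_pow, Polynomial.eval_X,
      Finset.prod_eq_zero (Finset.mem_univ (1 : L ≃ₐ[F] L)) (by
        rw [Polynomial.eval_sub, Polynomial.eval_X, Polynomial.eval_C, hx1, sub_self])] at h2
    exact pow_ne_zero _ hf h2.symm
  obtain ⟨g, hg⟩ := hcoef k
  refine ⟨g, ?_, fun z hz => ?_⟩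
  · change x (C.inc g) ≠ 0
    rw [hg]
    exact hk
  obtain ⟨y, rfl⟩ := lying C z
  have h1 : ∃ σ, y (s σ) ≠ 0 := by
    by_contra hcon
    push Not at hcon
    apply hz
    change y (C.inc g) = 0
    rw [hg]
    have h2 : (q.map y.toRingHom).coeff k = 0 := by
      rw [hqmap]
      simp only [hcon, map_zero, sub_zero, Finset.prod_const, Finset.card_univ]
      rw [Polynomial.coeff_X_pow, if_neg hkN]
    rwa [Polynomial.coeff_map] at h2
  obtain ⟨σ, hσ⟩ := h1
  let y' : Pt C.X := y.comp (((σ.restrictScalars ℂ : L →ₐ[ℂ] L).comp C.X.R.val).codRestrict C.X.R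
    fun c => C.stab σ c c.2)
  refine ⟨y', ?_, hσ⟩
  apply AlgHom.ext
  intro c
  change y ⟨σ (algebraMap F L c), _⟩ = y (C.inc c)
  congr 1
  exact Subtype.ext (σ.commutes _)

end Pool.Agent.W2helper37.LQ
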