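import Mathlib
import Pool.Agent.W2helper37.LQ.Core
import Pool.Agent.W2helper37.LQ.Quot
import Pool.Agent.Helper58K9.ET.Asm
import Pool.Agent.Helper58K9.ET.Up
import Pool.Agent.Helper58K9.ET.Down
import Pool.Agent.Helper58K9.ET.Dens

/-!
# Lower semicontinuity for étale local quotients of toroidal pairs
-/

set_option autoImplicit false
set_option linter.unusedSectionVars false

namespace Pool.Agent.W2helper37.LQ

open Pool.Agent.H436R3.Fol Pool.Agent.H436R3.KT Pool.Agent.W497.Mld Q47.QM Q47.TV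
open Pool.Agent.W2helper37.GQ (Cover)
open Pool.Agent.Helper58K9.AR (mld)
open Pool.Agent.Helper58K9.ET (Etale up down dens frac opn mld_congr)

section ereal

variable {K M : Type} [Field K] [Algebra ℂ K] [Field M] [Algebra ℂ M] {X : AffVar K}
  {B : EffDiv X} {x : Pt X} {e : LocEq B x} {Y : AffVar M} {B' : EffDiv Y} {x' : Pt Y}
  {e' : LocEq B' x'}

/-- comparison of minimal log discrepancies by means of lower bounds -/
theorem mld_le_of (h : ∀ m : ℝ, 0 ≤ m →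
    (∀ a, (∃ v, IsOverGerm x v ∧ IsLogDisc e v a) → m ≤ a) →
    ∀ a, (∃ v, IsOverGerm x' v ∧ IsLogDisc e' v a) → m ≤ a) : mld e ≤ mld e' := by
  classical
  by_cases h1 : ∃ v a, IsOverGerm x v ∧ IsLogDisc e v a ∧ a < 0
  · rw [mld, if_pos h1]
    exact bot_le
  have h1' : ∀ a, (∃ v, IsOverGerm x v ∧ IsLogDisc e v a) → 0 ≤ a := by
    rintro a ⟨v, hv, ha⟩
    by_contra hcon
    exact h1 ⟨v, a, hv, ha, not_le.1 hcon⟩
  have h2' := h 0 le_rfl h1'
  have h2 : ¬ ∃ v a, IsOverGerm x' v ∧ IsLogDisc e' v a ∧ a < 0 := by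
    rintro ⟨v, a, hv, ha, h0⟩
    exact absurd (h2' a ⟨v, hv, ha⟩) (not_le.2 h0)
  rw [mld, mld, if_neg h1, if_neg h2]
  set i := sInf {a : EReal | ∃ v r, IsOverGerm x v ∧ IsLogDisc e v r ∧ a = (r : EReal)} with hi
  have hval : ∀ a : ℝ, (∃ v, IsOverGerm x v ∧ IsLogDisc e v a) → i ≤ (a : EReal) := by
    rintro a ⟨v, hv, ha⟩
    exact sInf_le ⟨v, a, hv, ha, rfl⟩
  refine le_sInf ?_
  rintro _ ⟨v, r, hv, hr, rfl⟩
  rw [← EReal.ge_of_forall_gt_iff_ge]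
  intro z hz
  rcases le_total 0 z with h0 | h0
  · have h3 := h z h0 (fun a ha => by
      have h4 := hz.le.trans (hval a ha)
      exact_mod_cast h4) r ⟨v, hv, hr⟩
    exact_mod_cast h3
  · have h3 := h2' r ⟨v, hv, hr⟩
    have h4 : z ≤ r := h0.trans h3
    exact_mod_cast h4

end ereal

/-- lower semicontinuity for the quotient -/
theorem lsc_quot {F L : Type} [Field F] [Algebra ℂ F] [Field L] [Algebra ℂ L] [Algebra F L]
    [IsScalarTower ℂ F L] [FiniteDimensional F L] [IsGalois F L] {Z : AffVar F} (C : Cover Z L)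
    {n : ℕ} {BZ : EffDiv Z} (EZ : ∀ z : Pt Z, LocEq BZ z) {BX : EffDiv C.X}
    (EX : ∀ x : Pt C.X, LocEq BX x) (hp : ∀ x' : Pt C.X, C.IsPull (EX x') (EZ (C.im x')))
    (x : Pt C.X) (hch : ∀ σ ∈ C.St x,
      Nonempty (ToricChart n (FractionRing (MvPolynomial (Fin n) ℂ)) EX x σ)) :
    ∃ g : Z.R, C.im x g ≠ 0 ∧ ∀ z : Pt Z, z g ≠ 0 → mld (EZ (C.im x)) ≤ mld (EZ z) := by
  have hfin : Finite (Gal F L) := finite_Gal
  obtain ⟨f, hf, hfP⟩ := lsc_et (n := n) (x := x) (E := EX)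
    (FractionRing (MvPolynomial (Fin n) ℂ)) (Gal F L)
    (fun σ hσ f hf => mem_Gal_stab C hσ f hf)
    (fun σ hσ hfx => C.germAut (hp x) (σ := σ) ⟨hσ, hfx⟩)
    (fun σ hσ hfx => hch σ ⟨hσ, hfx⟩)
  obtain ⟨g, hg, hgP⟩ := nbd C hf
  refine ⟨g, hg, fun z hz => ?_⟩
  obtain ⟨x', rfl, hx'⟩ := hgP z hz
  refine mld_le_of fun m hm0 hm a ha => ?_
  obtain ⟨v, b, hv, hb, rfl⟩ := (quot_disc C (hp x') a).1 ha
  refine hfP x' hx' m hm0 (fun v b hv hb => ?_) v b hv hb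
  exact hm _ ((quot_disc C (hp x) _).2 ⟨v, b, hv, hb, rfl⟩)

/-- **Lower semicontinuity** for pairs which are étale locally quotients of toroidal pairs. -/
theorem lsc_main (n : ℕ) {M : Type} [Field M] [Algebra ℂ M] {Y : AffVar M} {BY : EffDiv Y}
    (EY : ∀ y : Pt Y, LocEq BY y) (y : Pt Y) (hy : IsToricQuotient n EY y) :
    ∃ f : Y.R, y f ≠ 0 ∧ ∀ y' : Pt Y, y' f ≠ 0 → mld (EY y) ≤ mld (EY y') := by
  obtain ⟨F, i3, i4, i5, i6, L, i7, i8, i9, i10, i11, i12, Z, h, C, x, BZ, EZ, BX, EX, rfl, hd, hp,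
    hch⟩ := hy
  obtain ⟨g, hg, hgP⟩ := lsc_quot C EZ EX hp x hch
  obtain ⟨f, hf, hfP⟩ := opn h (C.im x) g hg
  have hmld : ∀ z : Pt Z, mld (EY (h.im z)) = mld (EZ z) := by
    intro z
    refine mld_congr fun a => ?_
    constructor
    · rintro ⟨v', hv', ha⟩
      obtain ⟨v, hv, hvv⟩ := up h z v' hv'
      exact ⟨v, hv, (hd z v v' hv hvv a).2 ha⟩
    · rintro ⟨v, hv, ha⟩
      obtain ⟨v', hv', hvv⟩ := down dens frac h z v hv
      exact ⟨v', hv', (hd z v v' hv hvv a).1 ha⟩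
  refine ⟨f, hf, fun y' hy' => ?_⟩
  obtain ⟨z, rfl, hz⟩ := hfP y' hy'
  rw [hmld, hmld]
  exact hgP z hz

end Pool.Agent.W2helper37.LQ
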