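import Mathlib
import Pool.Agent.W2helper37.LQ.Defs
import Pool.Agent.W2helper37.GQ.Toric

/-!
# Toric pairs belong to the class
-/

set_option autoImplicit false
set_option linter.unusedSectionVars false

namespace Pool.Agent.W2helper37.LQ

open Pool.Agent.H436R3.Fol Pool.Agent.H436R3.KT Pool.Agent.W497.Mld Pool.Agent.TH165.ACC
  Q47.QM Q47.TV
open Pool.Agent.Helper58K9.ET (idEtale idEtale_im)
open Pool.Agent.W2helper37.GQ (trivCover torAff_normal same_disc same_symm)

/-- All toric pairs (at all closed points, of all affine toric varieties) belong to the class. -/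
theorem toric_mem (n : ℕ)
    (g : TorAff n (FractionRing (MvPolynomial (Fin n) ℂ))) (B : EffDiv g.X)
    (htor : ∀ v : DVal (FractionRing (MvPolynomial (Fin n) ℂ)),
      (∀ i : Fin n, v.ord (cv _ i) = 0) → B.mult v = 0)
    (E : ∀ y : Pt g.X, LocEq B y) (y : Pt g.X) : IsToricQuotient n E y := by
  refine ⟨FractionRing (MvPolynomial (Fin n) ℂ), inferInstance, inferInstance, Algebra.id _,
    inferInstance, FractionRing (MvPolynomial (Fin n) ℂ), inferInstance, inferInstance,
    Algebra.id _, inferInstance, inferInstance, inferInstance, g.X, idEtale g.X,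
    trivCover g.X (torAff_normal g), y, B, E, B, E, rfl, ?_, fun x' w _ => rfl, ?_⟩
  · intro z v v' hv hvv b
    exact ⟨same_disc (E z) hvv b, same_disc (E z) (same_symm hvv) b⟩
  · intro σ hσ
    have h1 : σ = 1 := AlgEquiv.ext fun f => hσ.1 f
    subst h1
    exact ⟨
      { g := g
        B' := B
        htor := htor
        E' := E
        τ := 1
        aut := fun c => Iff.rfl
        mono := fun m => ⟨1, m, by rw [map_one, one_mul]; rfl⟩
        Ω := FractionRing (MvPolynomial (Fin n) ℂ)
        U := g.X
        etX := idEtale g.X
        etY := idEtale g.X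
        u := y
        ux := rfl
        ρ := 1
        autU := fun f => Iff.rfl
        fixU := fun f f' h => by
          have : f = f' := Subtype.ext h.symm
          rw [this]
        comX := fun f => rfl
        comY := fun f => rfl
        disc := fun u' w v v' hw h2 h3 b => ⟨fun h => same_disc (E u') h3 b
          (same_disc (E u') (same_symm h2) b h), fun h => same_disc (E u') h2 b
          (same_disc (E u') (same_symm h3) b h)⟩ }⟩

end Pool.Agent.W2helper37.LQ
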