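import Mathlib
import Pool.Agent.W2helper37.LQ.Main
import Pool.Agent.W2helper37.LQ.Toric

/-!
# Lower semicontinuity of minimal log discrepancies for quotients of toroidal pairs

The conjecture is proved for the class of all pairs `(Y, B_Y)` which are, étale locally at every closed
point, quotients of toroidal pairs by finite groups, in all dimensions.

A pair `(Y, B_Y)` (`B_Y` effective, `K_Y + B_Y` is `ℝ`-Cartier with the local equations `EY y` at the
closed points) belongs to the class at the closed point `y` (`IsToricQuotient n EY y`) if there are

* an étale neighbourhood `Z → Y` of `y`,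
* a normal variety `X` with an arbitrary finite group `G` such that `X / G = Z` (`Cover`), a closed point
  `x` of `X` over `y`, and effective divisors `B_Z`, `B_X` such that `K_Z + B_Z` and `K_X + B_X` are
  the pull-backs of `K_Y + B_Y` (`G` may fix divisors),
* for every single element `σ` of the stabiliser of `x` an étale toric chart (`ToricChart`) of `(X, B_X)`
  at `x` for `σ`: étale morphisms from a variety `U` to `X` and to an affine toric variety of dimension
  `n` with a torus invariant boundary, a closed point `u` of `U` over `x`, and an automorphism of `U`
  fixing `u` which lies over `σ` and over a monomial automorphism of the toric variety, such that the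
  pull-backs of `K_X + B_X` and of the toric one to `U` agree.

The group `G` need not be abelian, the toric varieties need not be simplicial (so that `Y` need not have
quotient singularities, and need not have a crepant resolution by a smooth stack), different elements of
the stabiliser may use unrelated charts, and no torus acts on `X` or `Y`.

Theorem: there is an open neighbourhood `f ≠ 0` of `y` such that `mld_y (Y, B_Y) ≤ mld_y' (Y, B_Y)` for
all its closed points `y'`. So the function `mld` on the closed points of `Y` is lower semicontinuous if
all closed points of `Y` belong to the class.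

By theorems of Luna and Steinberg (not part of the Lean file) the charts exist for every finite group
acting on a toroidal pair.

All definitions are in `Pool.Agent.W2helper37.LQ.Defs` (`ToricChart`, `IsToricQuotient`),
`Pool.Agent.W2helper37.GQ.Defs` (`Cover`, `Cover.im`, `Cover.St`, `Cover.IsPull`),
`Pool.Agent.Helper58K9.ET.Defs` (`Etale`, `Etale.im`), `Pool.Agent.Helper58K9.AR.Mld` (`mld`) and in the
starting files `Q47.TV.Germ` (`TorAff`), `Q47.TV.Loc` (`FixesPt`), `Q47.QM` (`IsMono`),
`H436R3.Fol.Defs`, `H436R3.KT.Defs`, `W497.Mld.Defs` (valuations, `AffVar`, `Pt`, `EffDiv`, `LocEq`,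
`IsOverGerm`, `IsLogDisc`).
-/

set_option autoImplicit false

namespace Pool.Agent.Results.MP_f23696_ag.ToroidalQuotients

open Pool.Agent.H436R3.Fol Pool.Agent.H436R3.KT Pool.Agent.W497.Mld
open Pool.Agent.Helper58K9.AR (mld)
open Pool.Agent.W2helper37.LQ

/-- Every toric pair belongs to the class, at every closed point. -/
theorem toric_mem' (n : ℕ) (g : Q47.TV.TorAff n (FractionRing (MvPolynomial (Fin n) ℂ)))
    (B : EffDiv g.X) (htor : ∀ v : DVal (FractionRing (MvPolynomial (Fin n) ℂ)),
      (∀ i : Fin n, v.ord (cv _ i) = 0) → B.mult v = 0)
    (E : ∀ y : Pt g.X, LocEq B y) (y : Pt g.X) : IsToricQuotient n E y :=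
  toric_mem n g B htor E y

/-- **Lower semicontinuity of minimal log discrepancies** at the closed point `y` of the pair
`(Y, BY)`, if `(Y, BY)` is étale locally at `y` a quotient of a toroidal pair by a finite group. -/
theorem result (n : ℕ) {M : Type} [Field M] [Algebra ℂ M] {Y : AffVar M} {BY : EffDiv Y}
    (EY : ∀ y : Pt Y, LocEq BY y) (y : Pt Y) (hy : IsToricQuotient n EY y) :
    ∃ f : Y.R, y f ≠ 0 ∧ ∀ y' : Pt Y, y' f ≠ 0 → mld (EY y) ≤ mld (EY y') :=
  lsc_main n EY y hy

end Pool.Agent.Results.MP_f23696_ag.ToroidalQuotients
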